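import Pool.Agent.H45.OCV.Hyp

/-!
# Theorem OCV for real variables

`OCVRStmt` is the form of theorem OCV with real variables (in the mean over the contexts).
-/

set_option autoImplicit false

namespace Pool.OCV

open Finset Real
open Pool.Agent.H49.Ent Pool.Agent.H32.Dense Pool.STK Pool.KA Pool.K2S
open Pool.K2S.Uni

/-- (H6a) on a typical line the slope is not constant. -/
def H6aR {Ω Λ : Type} [Fintype Ω] {c : ℕ} (p : Ω → ℝ) (L : Ω → Λ) (S : Ω → Fin c → ℝ) (X : ℕ)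
    (x₀ p₀ ε : ℝ) : Prop :=
  Pool.KAF.Pr p {ω | Pool.KAF.Pr (Pool.Agent.H49.Ent.cond p L (L ω))
    {ρ | ∃ i, (2 : ℝ) ^ (-(x₀ * X)) ≤ |S ρ i - S ω i|} < p₀} ≤ ε

/-- (H6b) for a typical point `pt` no combination of the slopes is constant on the lines through
the point. -/
def H6bR {Ω Λ ξ : Type} [Fintype Ω] {c : ℕ} (p : Ω → ℝ) (L : Ω → Λ) (pt : Ω → ξ)
    (S : Ω → Fin c → ℝ) (X : ℕ) (x₀ p₀ ε : ℝ) : Prop :=
  Pool.KAF.Pr p {ω | ∃ n : Fin c → ℝ, (∀ i, |n i| ≤ 1) ∧ (∃ i, |n i| = 1) ∧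
    ∑ ω', Pool.Agent.H49.Ent.cond p pt (pt ω) ω' *
      Pool.KAF.Pr (Pool.Agent.H49.Ent.cond p L (L ω'))
        {ρ | (2 : ℝ) ^ (-(x₀ * X)) ≤ |∑ i, n i * (S ρ i - S ω i)|} < p₀} ≤ ε

/-- **Theorem OCV with real variables.** -/
def OCVRStmt (c : ℕ) : Prop :=
  ∀ (K c₀ ca p₀ : ℝ), 0 < c₀ → 0 < ca → 0 < p₀ → ∃ (x₀ η κ ϖ ι ε : ℝ) (X₀ : ℕ), 0 < x₀ ∧
    0 < η ∧ η ≤ 1 ∧ 0 < κ ∧ κ ≤ 1 ∧ 0 < ϖ ∧ 0 < ι ∧ 0 < ε ∧
    ∀ (Ω β Λ Θ ν : Type) [Fintype Ω] (p : Ω → ℝ) (b : Ω → β) (L : Ω → Λ) (T : Ω → Θ)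
      (vis : Ω → ν) (y om : Ω → ℝ) (be m0 : Ω → Fin c → ℝ) (th : Ω → ℝ)
      (S kn nu : Ω → Fin c → ℝ) (X : ℕ), OCVData K p b L T vis y om be m0 th S kn nu → X₀ ≤ X →
      Pool.KVA.MI p T L b ≤ ι * X →
      (1 - ι) * X * Real.log 2 ≤ CH p (dg X th) L →
      CH p (dgv X nu) (fun ω => (b ω, T ω)) -
        CH p (dgv X nu) (fun ω => ((dg X y ω, (dg X om ω, dgv X be ω)), (b ω, T ω))) ≤ ι * X →
      CH p (dg X om) (fun ω => (b ω, T ω)) -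
        CH p (dg X om) (fun ω => ((dg X (ytr y om th) ω, dgv X (btr om be S) ω),
          (b ω, T ω))) ≤ ι * X →
      (∀ j : ℕ, (j + 1) * ⌊η * X⌋₊ ≤ X → ∀ E : Ω → Prop, ϖ ≤ Pe p E →
        ca * ⌊η * X⌋₊ * Real.log 2 ≤ CH (Pool.Agent.H49.Ent.cond p E True)
          (dg ((j + 1) * ⌊η * X⌋₊) om) (fun ω => (dg (j * ⌊η * X⌋₊) om ω, b ω))) →
      (∀ j : ℕ, (j + 1) * ⌊κ * X⌋₊ ≤ X → ∀ E : Ω → Prop, ϖ ≤ Pe p E →
        CH (Pool.Agent.H49.Ent.cond p E True) (dgv ((j + 1) * ⌊κ * X⌋₊) nu)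
          (fun ω => (dgv (j * ⌊κ * X⌋₊) nu ω, (vis ω, T ω))) ≤
            (c - c₀) * ⌊κ * X⌋₊ * Real.log 2) →
      H6aR p L S X x₀ p₀ ε → H6bR p L (fun ω => (vis ω, dgv X nu ω, T ω)) S X x₀ p₀ ε →
      CH p (dgv X nu) (fun ω => (vis ω, T ω)) -
        CH p (dgv X nu) (fun ω => (b ω, (vis ω, T ω))) ≤ ι * X → False

variable {Ω Λ Θ β ν : Type} [Fintype Ω] {c B : ℕ}

variable {q : Ω → ℝ} {b : Ω → β} {L : Ω → Λ} {T : Ω → Θ} {vis : Ω → ν} {y om : Ω → ℝ}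
  {be : Ω → Fin c → ℝ} {th : Ω → ℝ} {S nu : Ω → Fin c → ℝ} {X : ℕ} {f : Fns Λ Θ β c}

theorem pow_up {x₀ : ℝ} (hX : 2 * B ≤ x₀ * X) :
    (2 : ℝ) ^ (-(x₀ * X)) ≤ (2 : ℝ) ^ (-(x₀ / 2 * X)) / 2 ^ B := by
  rw [le_div_iff₀ (by positivity), ← Real.rpow_natCast, ← Real.rpow_add (by norm_num)]
  refine Real.rpow_le_rpow_of_exponent_le (by norm_num) ?_
  linarith

theorem Mk.H6a (hk : Mk B q b L T vis y om be th S nu X f) {x₀ p₀ ε : ℝ} (hX : 2 * B ≤ x₀ * X)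
    (h6 : H6aR q L S X (x₀ / 2) p₀ ε) : (mkV B q L T vis f nu X).H6a x₀ p₀ ε := by
  have h0 : ∀ ω, 0 ≤ q ω := hk.ok.law.nonneg
  have h2 := pow_up hX
  refine le_trans (Pr_le_of h0 fun ω hω hE => ?_) h6
  refine lt_of_le_of_lt ?_ (show Pool.KAF.Pr (Pool.Agent.H49.Ent.cond q L (L ω))
    {ρ | ∃ i, (2 : ℝ) ^ (-(x₀ * X)) ≤ |(mkV B q L T vis f nu X).S (T ρ) i -
      (mkV B q L T vis f nu X).S (T ω) i|} < p₀ from hE)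
  show Pool.KAF.Pr (Pool.Agent.H49.Ent.cond q L (L ω))
    {ρ | ∃ i, (2 : ℝ) ^ (-(x₀ / 2 * X)) ≤ |S ρ i - S ω i|} ≤
    Pool.KAF.Pr (Pool.Agent.H49.Ent.cond q L (L ω))
    {ρ | ∃ i, (2 : ℝ) ^ (-(x₀ * X)) ≤ |(mkV B q L T vis f nu X).S (T ρ) i -
      (mkV B q L T vis f nu X).S (T ω) i|}
  refine Pr_le_of (fun v => cond_nonneg h0 L _ v) fun ρ hρ hE' => ?_
  have hρ' : 0 < q ρ := ((cond_pos_iff h0 _ _ ρ).1 hρ).1
  obtain ⟨i, hi⟩ := hE'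
  refine ⟨i, ?_⟩
  rw [hk.eS ρ hρ', hk.eS ω hω]
  have e : S ρ i / 2 ^ B - S ω i / 2 ^ B = (S ρ i - S ω i) / 2 ^ B := by ring
  rw [e, abs_div, abs_of_pos (by positivity : (0 : ℝ) < 2 ^ B)]
  have : (2 : ℝ) ^ (-(x₀ / 2 * X)) / 2 ^ B ≤ |S ρ i - S ω i| / 2 ^ B :=
    div_le_div_of_nonneg_right hi (by positivity)
  linarith

theorem Mk.H6b (hk : Mk B q b L T vis y om be th S nu X f) {x₀ p₀ ε : ℝ} (hX : 2 * B ≤ x₀ * X)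
    (h6 : H6bR q L (fun ω => (vis ω, dgv X nu ω, T ω)) S X (x₀ / 2) p₀ ε) :
    (mkV B q L T vis f nu X).H6b x₀ p₀ ε := by
  have h0 : ∀ ω, 0 ≤ q ω := hk.ok.law.nonneg
  have h2 := pow_up hX
  refine le_trans (Pr_le_of h0 fun ω hω hE => ?_) h6
  obtain ⟨n, hn1, hn2, hn3⟩ := hE
  refine ⟨n, hn1, hn2, lt_of_le_of_lt ?_ hn3⟩
  show ∑ ω', Pool.Agent.H49.Ent.cond q (fun ω => (vis ω, dgv X nu ω, T ω))
      (vis ω, dgv X nu ω, T ω) ω' * Pool.KAF.Pr (Pool.Agent.H49.Ent.cond q L (L ω'))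
        {ρ | (2 : ℝ) ^ (-(x₀ / 2 * X)) ≤ |∑ i, n i * (S ρ i - S ω i)|} ≤
    ∑ ω', Pool.Agent.H49.Ent.cond q (fun ω => (vis ω, dgv X nu ω, T ω))
      (vis ω, dgv X nu ω, T ω) ω' * Pool.KAF.Pr (Pool.Agent.H49.Ent.cond q L (L ω'))
        {ρ | (2 : ℝ) ^ (-(x₀ * X)) ≤ |∑ i, n i * ((mkV B q L T vis f nu X).S (T ρ) i -
          (mkV B q L T vis f nu X).S (T ω) i)|}
  refine Finset.sum_le_sum fun ω' _ => mul_le_mul_of_nonneg_left ?_ (cond_nonneg h0 _ _ ω')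
  refine Pr_le_of (fun v => cond_nonneg h0 L _ v) fun ρ hρ hE' => ?_
  have hρ' : 0 < q ρ := ((cond_pos_iff h0 _ _ ρ).1 hρ).1
  have hE'' : (2 : ℝ) ^ (-(x₀ / 2 * X)) ≤ |∑ i, n i * (S ρ i - S ω i)| := hE'
  show (2 : ℝ) ^ (-(x₀ * X)) ≤ |∑ i, n i * ((mkV B q L T vis f nu X).S (T ρ) i -
    (mkV B q L T vis f nu X).S (T ω) i)|
  have e : ∑ i, n i * ((mkV B q L T vis f nu X).S (T ρ) i - (mkV B q L T vis f nu X).S (T ω) i) =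
      (∑ i, n i * (S ρ i - S ω i)) / 2 ^ B := by
    rw [Finset.sum_div]
    refine Finset.sum_congr rfl fun i _ => ?_
    rw [hk.eS ρ hρ', hk.eS ω hω]
    ring
  rw [e, abs_div, abs_of_pos (by positivity : (0 : ℝ) < 2 ^ B)]
  have : (2 : ℝ) ^ (-(x₀ / 2 * X)) / 2 ^ B ≤ |∑ i, n i * (S ρ i - S ω i)| / 2 ^ B :=
    div_le_div_of_nonneg_right hE'' (by positivity)
  linarith

/-- **The real form of theorem OCV.** -/
theorem ocvr_thm {c : ℕ} (h : OCVStmt c) : OCVRStmt c := by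
  intro K c₀ ca p₀ hc₀ hca hp₀
  obtain ⟨B, hB⟩ : ∃ B : ℕ, K ≤ 2 ^ B := by
    obtain ⟨n, hn⟩ := exists_nat_ge K
    refine ⟨n, hn.trans ?_⟩
    exact_mod_cast Nat.lt_two_pow_self.le
  obtain ⟨x₀, η, κ, ϖ, ι, ε, X₀, hx, hη, hη1, hκ, hκ1, hϖ, hι, hε, H⟩ :=
    h B c₀ (ca / 2) p₀ hc₀ (by positivity) hp₀
  obtain ⟨X₁, hX₁⟩ := exists_nat_ge ((4 * B + 4 + 6 * c) * Real.log 2 / ι + 2 * B / x₀ +
    (2 * B / ca + 1) / η)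
  have hl : 0 < Real.log 2 := Real.log_pos (by norm_num)
  refine ⟨x₀ / 2, η, κ, ϖ, ι / 2, ε, max X₀ X₁, by positivity, hη, hη1, hκ, hκ1, hϖ,
    by positivity, hε, ?_⟩
  intro Ω β Λ Θ ν _ p b L T vis y om be m0 th S kn nu X hd hX h1 h1' h2 h3 h4 h5 h6a h6b h7
  obtain ⟨f, hk⟩ := mk_exists hd hB X
  have hX0 : X₀ ≤ X := le_trans (le_max_left _ _) hX
  have hX1 : (X₁ : ℝ) ≤ X := by exact_mod_cast le_trans (le_max_right _ _) hX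
  have a1 : 0 ≤ (4 * B + 4 + 6 * c) * Real.log 2 / ι := by positivity
  have a2 : 0 ≤ 2 * B / x₀ := by positivity
  have a3 : 0 ≤ (2 * B / ca + 1) / η := by positivity
  have b1 : (4 * B + 4 + 6 * c) * Real.log 2 ≤ ι * X := by
    have : (4 * B + 4 + 6 * c) * Real.log 2 / ι ≤ X := by linarith
    rw [div_le_iff₀ hι] at this
    linarith
  have b2 : 2 * B ≤ x₀ * X := by
    have : 2 * B / x₀ ≤ X := by linarith
    rw [div_le_iff₀ hx] at this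
    linarith
  have b3 : 2 * B ≤ ca * ⌊η * X⌋₊ := by
    have : (2 * B / ca + 1) / η ≤ X := by linarith
    rw [div_le_iff₀ hη] at this
    have k1 := Nat.lt_floor_add_one (η * X)
    have k2 : 2 * B / ca ≤ ⌊η * X⌋₊ := by linarith
    rw [div_le_iff₀ hca] at k2
    linarith
  have b4 : 4 * B * Real.log 2 ≤ ι * X := by
    have k1 : 4 * B * Real.log 2 ≤ (4 * B + 4 + 6 * c) * Real.log 2 := by
      refine mul_le_mul_of_nonneg_right ?_ hl.le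
      have : (0 : ℝ) ≤ c := Nat.cast_nonneg c
      linarith
    linarith
  have hX' : (0 : ℝ) ≤ X := Nat.cast_nonneg X
  have c1 : ι / 2 * X ≤ ι * X := by nlinarith [mul_nonneg hι.le hX']
  refine H (mkV B p L T vis f nu X) hk.ok hX0 (hk.H1 (h1.trans c1) (le_trans ?_ h1'))
    (hk.H2 b4 h2) (hk.H3 hd.hth (fun ω hω i => (hd.hS ω hω i).trans hB) b1 h3)
    (hk.H4 hϖ b3 h4) (mk_H5 h5) (hk.H6a b2 h6a)
    (hk.H6b b2 h6b) (hk.H7 (h7.trans c1))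
  refine mul_le_mul_of_nonneg_right ?_ hl.le
  nlinarith [mul_nonneg hι.le hX']

end Pool.OCV
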