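import Pool.Agent.H59.OC.OCB
import Pool.Agent.H98.OCV.Defs

/-!
# Theorem OCV for real variables: rounding

Basic facts on the digits of real variables.
-/

set_option autoImplicit false

namespace Pool.OCV

open Finset Real
open Pool.Agent.H49.Ent Pool.Agent.H32.Dense Pool.STK Pool.KA Pool.K2S
open Pool.K2S.Uni

variable {Ω Λ Θ S T U V β : Type} [Fintype Ω] {c : ℕ}

/-- The digits of a real vector. -/
noncomputable def dgv (X : ℕ) (y : Ω → Fin c → ℝ) (ω : Ω) : Fin c → ℤ :=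
  fun i => ⌊(2 : ℝ) ^ X * y ω i⌋

/-- The tangential position at the time of the sample. -/
def ytr (y om th : Ω → ℝ) (ω : Ω) : ℝ := y ω + th ω * om ω

/-- The normal velocity in the frame of the time of the sample. -/
def btr (om : Ω → ℝ) (be S : Ω → Fin c → ℝ) (ω : Ω) : Fin c → ℝ :=
  fun i => be ω i - S ω i * om ω

/-- A variable which is determined by a label is a function of the label. -/
theorem exists_fun' {q : Ω → ℝ} {L : Ω → Λ} {y : Ω → S} [Nonempty S] (h : Det q L y) :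
    ∃ f : Λ → S, ∀ ω, 0 < q ω → y ω = f (L ω) := by
  classical
  refine ⟨fun a => if h : ∃ ω, 0 < q ω ∧ L ω = a then y h.choose else Classical.arbitrary S,
    fun ω hω => ?_⟩
  have hex : ∃ ω', 0 < q ω' ∧ L ω' = L ω := ⟨ω, hω, rfl⟩
  dsimp only
  rw [dif_pos hex]
  exact h ω _ hω hex.choose_spec.1 hex.choose_spec.2.symm

theorem bnd1 (x : ℝ) : |x - ⌊x⌋| ≤ 1 := by
  rw [abs_le]
  have := Int.floor_le x
  have := Int.lt_floor_add_one x
  constructor <;> linarith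

/-- Multiplication by a power of two and digits. -/
theorem floor_up (B : ℕ) (x : ℝ) : 2 ^ B * ⌊x⌋ ≤ ⌊(2 : ℝ) ^ B * x⌋ ∧
    ⌊(2 : ℝ) ^ B * x⌋ < 2 ^ B * ⌊x⌋ + 2 ^ B := by
  have h2 := Int.floor_le x
  have h3 := Int.lt_floor_add_one x
  have h4 : (0 : ℝ) < 2 ^ B := by positivity
  refine ⟨Int.le_floor.2 ?_, Int.floor_lt.2 ?_⟩
  · push_cast
    nlinarith
  · push_cast
    nlinarith

theorem floor_up_div (B : ℕ) (x : ℝ) : ⌊(2 : ℝ) ^ B * x⌋ / 2 ^ B = ⌊x⌋ := by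
  obtain ⟨h1, h2⟩ := floor_up B x
  have h4 : (0 : ℤ) < 2 ^ B := by positivity
  refine le_antisymm (Int.lt_add_one_iff.1 (Int.ediv_lt_of_lt_mul h4 (by linarith)))
    ((Int.le_ediv_iff_mul_le h4).2 (by linarith))

omit [Fintype Ω] in
theorem up_div (B X : ℕ) (x : Ω → ℝ) (ω : Ω) :
    dg X (fun v => 2 ^ B * x v) ω / 2 ^ B = dg X x ω := by
  show ⌊(2 : ℝ) ^ X * (2 ^ B * x ω)⌋ / 2 ^ B = ⌊(2 : ℝ) ^ X * x ω⌋
  have e : (2 : ℝ) ^ X * (2 ^ B * x ω) = 2 ^ B * (2 ^ X * x ω) := by ring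
  rw [e]
  exact floor_up_div B _

omit [Fintype Ω] in
theorem up_mem (B X : ℕ) (x : Ω → ℝ) (ω : Ω) : dg X (fun v => 2 ^ B * x v) ω ∈
    Finset.Ico (2 ^ B * dg X x ω) (2 ^ B * dg X x ω + 2 ^ B) := by
  rw [Finset.mem_Ico]
  have h := floor_up B ((2 : ℝ) ^ X * x ω)
  have e : (2 : ℝ) ^ B * (2 ^ X * x ω) = 2 ^ X * (2 ^ B * x ω) := by ring
  rw [e] at h
  exact h

theorem cardup (B : ℕ) (x : ℤ) : (Finset.Ico (2 ^ B * x) (2 ^ B * x + 2 ^ B)).card = 2 ^ B := by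
  rw [Int.card_Ico]
  have : 2 ^ B * x + 2 ^ B - 2 ^ B * x = ((2 ^ B : ℕ) : ℤ) := by
    push_cast
    ring
  rw [this]
  exact Int.toNat_natCast _

theorem CH_up_given {q : Ω → ℝ} (hq : IsLaw q) (B X : ℕ) (x : Ω → ℝ) (W : Ω → T) :
    CH q (dg X (fun v => 2 ^ B * x v)) (fun ω => (dg X x ω, W ω)) ≤ B * Real.log 2 := by
  refine (CH_le_card hq.nonneg hq.sum_one _ _
    (fun v => Finset.Ico (2 ^ B * v.1) (2 ^ B * v.1 + 2 ^ B)) ?_).trans ?_
  · intro ω _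
    exact up_mem B X x ω
  · refine le_of_eq ?_
    simp only [cardup]
    rw [Ex_const hq.sum_one]
    push_cast
    rw [Real.log_pow]

/-- Entropy of the refined digits. -/
theorem CH_up {q : Ω → ℝ} (hq : IsLaw q) (B X : ℕ) (x : Ω → ℝ) (W : Ω → T) :
    CH q (dg X (fun v => 2 ^ B * x v)) W ≤ CH q (dg X x) W + B * Real.log 2 := by
  have k1 := CH_le_add hq.nonneg (dg X (fun v => 2 ^ B * x v)) (dg X x) W
  have k2 := CH_up_given hq B X x W
  linarith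

theorem CH_up_ge {q : Ω → ℝ} (hq : IsLaw q) (B X : ℕ) (x : Ω → ℝ) (W : Ω → T) :
    CH q (dg X x) W ≤ CH q (dg X (fun v => 2 ^ B * x v)) W := by
  refine CH_mono_left hq.nonneg fun ω ω' _ _ e => ?_
  have e' : dg X (fun v => 2 ^ B * x v) ω = dg X (fun v => 2 ^ B * x v) ω' :=
    (Prod.ext_iff.mp e).1
  rw [← up_div B X x ω, ← up_div B X x ω', e']

/-- Mutual information as a difference. -/
theorem MI_eq {q : Ω → ℝ} (h0 : ∀ ω, 0 ≤ q ω) (X : Ω → S) (Y : Ω → U) (W : Ω → T) :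
    Pool.KVA.MI q X Y W = CH q X W - CH q X (fun ω => (Y ω, W ω)) := by
  have k1 := CH_chain h0 X Y W
  unfold Pool.KVA.MI
  rw [k1]
  ring

/-- The rounding of the position at the time of the sample. -/
theorem yt_mem {B : ℕ} {u Y O yv ov t : ℝ} (n4 : |u * (2 ^ B * yv) - Y| ≤ 1 ∧
    Y ≤ u * (2 ^ B * yv)) (n5 : |u * (2 ^ B * ov) - O| ≤ 1 ∧ O ≤ u * (2 ^ B * ov))
    (t0 : 0 ≤ t) (t1 : t < 1) (hu : 0 < u) :
    ⌊u * (Y / u + t * (O / u))⌋ ∈
      Finset.Ico (2 ^ B * ⌊u * (yv + t * ov)⌋ - 2) (2 ^ B * ⌊u * (yv + t * ov)⌋ + 2 ^ B) := by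
  have e : u * (Y / u + t * (O / u)) = Y + t * O := by field_simp
  rw [e, Finset.mem_Ico]
  obtain ⟨a1, a2⟩ := n4
  obtain ⟨b1, b2⟩ := n5
  have c1 := (abs_le.1 a1).2
  have c2 := (abs_le.1 b1).2
  have f1 := Int.floor_le (u * (yv + t * ov))
  have f2 := Int.lt_floor_add_one (u * (yv + t * ov))
  have g1 : t * (u * (2 ^ B * ov)) - t * O ≤ t * 1 := by
    rw [← mul_sub]
    exact mul_le_mul_of_nonneg_left c2 t0
  have g2 : t * O ≤ t * (u * (2 ^ B * ov)) := mul_le_mul_of_nonneg_left b2 t0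
  have hB : (0 : ℝ) < 2 ^ B := by positivity
  have f3 := mul_le_mul_of_nonneg_left f1 hB.le
  have f4 := mul_lt_mul_of_pos_left f2 hB
  constructor
  · rw [Int.le_floor]
    push_cast
    nlinarith
  · rw [Int.floor_lt]
    push_cast
    nlinarith

/-- The rounding of the normal velocity in the frame of the time of the sample. -/
theorem bt_mem {B : ℕ} {u V O bv ov s : ℝ} (n3 : |u * bv - V| ≤ 1)
    (n5 : |u * (2 ^ B * ov) - O| ≤ 1) (hs : |s| ≤ 2 ^ B) (hu : 0 < u) :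
    ⌊u * (V / u - s / 2 ^ B * (O / u))⌋ ∈
      Finset.Ico (⌊u * (bv - s * ov)⌋ - 2) (⌊u * (bv - s * ov)⌋ + 4) := by
  have hB : (0 : ℝ) < 2 ^ B := by positivity
  have e : u * (V / u - s / 2 ^ B * (O / u)) = V - s / 2 ^ B * O := by field_simp
  rw [e, Finset.mem_Ico]
  have f1 := Int.floor_le (u * (bv - s * ov))
  have f2 := Int.lt_floor_add_one (u * (bv - s * ov))
  have g1 : |s / 2 ^ B * (u * (2 ^ B * ov) - O)| ≤ 1 * 1 := by
    refine abs_mul_le ?_ n5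
    rw [abs_div, abs_of_pos hB, div_le_one hB]
    exact hs
  rw [abs_le] at n3 g1
  have e2 : V - s / 2 ^ B * O = u * (bv - s * ov) - (u * bv - V) +
      s / 2 ^ B * (u * (2 ^ B * ov) - O) := by
    field_simp
    ring
  constructor
  · rw [Int.le_floor]
    push_cast
    rw [e2]
    linarith
  · rw [Int.floor_lt]
    push_cast
    rw [e2]
    linarith

/-- The difference of two normal positions. -/
theorem hZ_up {B : ℕ} {u y om be m0 t t' s s' nu nu' N N' V Y O : ℝ} (hu : 0 < u)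
    (c1 : nu = m0 + t * be - s * (y + t * om)) (c2 : nu' = m0 + t' * be - s' * (y + t' * om))
    (t1 : 0 ≤ t) (t1' : t < 1) (t2 : 0 ≤ t') (t2' : t' < 1) (s1 : |s| ≤ 2 ^ B)
    (s2 : |s'| ≤ 2 ^ B)
    (n1 : |u * nu - N| ≤ 1) (n2 : |u * nu' - N'| ≤ 1) (n3 : |u * be - V| ≤ 1)
    (n4 : |u * (2 ^ B * y) - Y| ≤ 1) (n5 : |u * (2 ^ B * om) - O| ≤ 1) :
    |(N' - N) - u * ((t' - t) * (V / u) - (s' / 2 ^ B - s / 2 ^ B) * (Y / u) -
      (s' / 2 ^ B * t' - s / 2 ^ B * t) * (O / u))| ≤ 8 := by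
  have hB : (0 : ℝ) < 2 ^ B := by positivity
  have e1 : (N' - N) - u * ((t' - t) * (V / u) - (s' / 2 ^ B - s / 2 ^ B) * (Y / u) -
      (s' / 2 ^ B * t' - s / 2 ^ B * t) * (O / u)) =
      -(u * nu' - N') + (u * nu - N) + (t' - t) * (u * be - V) -
        ((s' - s) / 2 ^ B) * (u * (2 ^ B * y) - Y) -
        ((s' * t' - s * t) / 2 ^ B) * (u * (2 ^ B * om) - O) := by
    rw [c1, c2]
    field_simp
    ring
  rw [e1]
  have a1 : |t' - t| ≤ 1 := by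
    rw [abs_le]
    constructor <;> linarith
  have a2 : |(s' - s) / 2 ^ B| ≤ 2 := by
    rw [abs_div, abs_of_pos hB, div_le_iff₀ hB]
    have := abs_sub s' s
    linarith
  have a3 : |(s' * t' - s * t) / 2 ^ B| ≤ 2 := by
    rw [abs_div, abs_of_pos hB, div_le_iff₀ hB]
    have b1 := abs_sub (s' * t') (s * t)
    have b2 : |s' * t'| ≤ 2 ^ B * 1 := abs_mul_le s2 (by rw [abs_of_nonneg t2]; exact t2'.le)
    have b3 : |s * t| ≤ 2 ^ B * 1 := abs_mul_le s1 (by rw [abs_of_nonneg t1]; exact t1'.le)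
    linarith
  have b1 := abs_mul_le a1 n3
  have b2 := abs_mul_le a2 n4
  have b3 := abs_mul_le a3 n5
  rw [abs_le] at n1 n2 b1 b2 b3 ⊢
  constructor <;> linarith

/-- Digits of the rounded velocity. -/
theorem floor_round {X r : ℕ} (h : r ≤ X) (x : ℝ) :
    ⌊(2 : ℝ) ^ r * ((⌊(2 : ℝ) ^ X * x⌋ : ℝ) / 2 ^ X)⌋ = ⌊(2 : ℝ) ^ r * x⌋ := by
  have e3 : (2 : ℝ) ^ X = 2 ^ r * 2 ^ (X - r) := by
    rw [← pow_add]
    congr 1
    omega
  have e1 : (2 : ℝ) ^ r * ((⌊(2 : ℝ) ^ X * x⌋ : ℝ) / 2 ^ X) =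
      (⌊(2 : ℝ) ^ X * x⌋ : ℝ) / ((2 ^ (X - r) : ℕ) : ℝ) := by
    rw [e3]
    push_cast
    field_simp
  rw [e1, Int.floor_div_natCast]
  have h2 := floor_row h x
  push_cast
  rw [Int.floor_intCast]
  exact h2

/-- Conditional law of an event, up to the support. -/
theorem Pr_congr {q : Ω → ℝ} (hq : ∀ ω, 0 ≤ q ω) {E E' : Set Ω}
    (h : ∀ ω, 0 < q ω → (ω ∈ E ↔ ω ∈ E')) : Pool.KAF.Pr q E = Pool.KAF.Pr q E' := by
  refine le_antisymm (Pr_le_of hq fun ω hω hE => (h ω hω).1 hE)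
    (Pr_le_of hq fun ω hω hE => (h ω hω).2 hE)

end Pool.OCV
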