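import Pool.Agent.H45.OCV.Mk

/-!
# Theorem OCV for real variables: the hypotheses for the rounded variables
-/

set_option autoImplicit false

namespace Pool.OCV

open Finset Real
open Pool.Agent.H49.Ent Pool.Agent.H32.Dense Pool.STK Pool.KA Pool.K2S
open Pool.K2S.Uni

variable {Ω Λ Θ β ν : Type} [Fintype Ω] {c B : ℕ}

variable {q : Ω → ℝ} {b : Ω → β} {L : Ω → Λ} {T : Ω → Θ} {vis : Ω → ν} {y om : Ω → ℝ}
  {be : Ω → Fin c → ℝ} {th : Ω → ℝ} {S nu : Ω → Fin c → ℝ} {X : ℕ} {f : Fns Λ Θ β c}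

theorem Mk.H1 (hk : Mk B q b L T vis y om be th S nu X f) {ι : ℝ}
    (h1 : Pool.KVA.MI q T L b ≤ ι * X)
    (h1' : (1 - ι) * X * Real.log 2 ≤ CH q (dg X th) L) :
    (mkV B q L T vis f nu X).H1 ι := by
  have h0 : ∀ ω, 0 ≤ q ω := hk.ok.law.nonneg
  constructor
  · refine le_trans (le_of_eq ?_) h1
    show Pool.KVA.MI q T L (mkV B q L T vis f nu X).B = _
    rw [MI_eq h0, MI_eq h0]
    have e1 : CH q T (mkV B q L T vis f nu X).B = CH q T b :=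
      CH_eq_of h0 (fun _ _ => rfl) hk.eb
    have e2 : CH q T (fun ω => (L ω, (mkV B q L T vis f nu X).B ω)) =
        CH q T (fun ω => (L ω, b ω)) :=
      CH_eq_of h0 (fun _ _ => rfl) fun ω hω => Prod.ext rfl (hk.eb ω hω)
    rw [e1, e2]
  · refine h1'.trans (le_of_eq ?_)
    refine CH_eq_of h0 (fun ω hω => ?_) fun _ _ => rfl
    show ⌊(2 : ℝ) ^ X * th ω⌋ = ⌊(2 : ℝ) ^ X * (mkV B q L T vis f nu X).th (T ω)⌋
    rw [hk.eth ω hω]

theorem Mk.H2 (hk : Mk B q b L T vis y om be th S nu X f) {ι : ℝ}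
    (hX : 4 * B * Real.log 2 ≤ ι * X)
    (h2 : CH q (dgv X nu) (fun ω => (b ω, T ω)) -
      CH q (dgv X nu) (fun ω => ((dg X y ω, (dg X om ω, dgv X be ω)), (b ω, T ω))) ≤
        ι / 2 * X) :
    (mkV B q L T vis f nu X).H2 ι := by
  have hq : IsLaw q := hk.ok.law
  have h0 := hq.nonneg
  show Pool.KVA.MI q (dgv X nu) (fun ω => ((mkV B q L T vis f nu X).y (L ω),
    (mkV B q L T vis f nu X).om (L ω), (mkV B q L T vis f nu X).be (L ω)))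
    (fun ω => ((mkV B q L T vis f nu X).B ω, T ω)) ≤ ι * X
  rw [MI_eq h0]
  have k1 : CH q (dgv X nu) (fun ω => ((mkV B q L T vis f nu X).B ω, T ω)) =
      CH q (dgv X nu) (fun ω => (b ω, T ω)) :=
    CH_eq_of h0 (fun _ _ => rfl) fun ω hω => Prod.ext (hk.eb ω hω) rfl
  have k2 : CH q (dgv X nu) (fun ω => (((mkV B q L T vis f nu X).y (L ω),
      (mkV B q L T vis f nu X).om (L ω), (mkV B q L T vis f nu X).be (L ω)),
      ((mkV B q L T vis f nu X).B ω, T ω))) =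
      CH q (dgv X nu) (fun ω => ((dg X (fun v => 2 ^ B * y v) ω, (dg X (fun v => 2 ^ B * om v) ω,
        dgv X be ω)), (b ω, T ω))) := by
    refine CH_eq_of h0 (fun _ _ => rfl) fun ω hω => ?_
    exact Prod.ext (Prod.ext (hk.ey ω hω) (Prod.ext (hk.eom ω hω) (hk.ebe ω hω)))
      (Prod.ext (hk.eb ω hω) rfl)
  have k4 : CH q (dgv X nu) (fun ω => ((dg X (fun v => 2 ^ B * y v) ω,
      (dg X (fun v => 2 ^ B * om v) ω, dgv X be ω)),
      ((dg X y ω, (dg X om ω, dgv X be ω)), (b ω, T ω)))) ≤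
      CH q (dgv X nu) (fun ω => ((dg X (fun v => 2 ^ B * y v) ω, (dg X (fun v => 2 ^ B * om v) ω,
        dgv X be ω)), (b ω, T ω))) :=
    CH_mono_cond h0 fun ω ω' _ _ e => Prod.ext (Prod.ext_iff.mp e).1
      (Prod.ext_iff.mp (Prod.ext_iff.mp e).2).2
  have k5 : CH q (fun ω => (dg X (fun v => 2 ^ B * y v) ω,
      (dg X (fun v => 2 ^ B * om v) ω, dgv X be ω)))
      (fun ω => ((dg X y ω, (dg X om ω, dgv X be ω)), (b ω, T ω))) ≤ 2 * B * Real.log 2 := by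
    refine (CH_le_card h0 hq.sum_one _ _ (fun v =>
      (Finset.Ico (2 ^ B * v.1.1) (2 ^ B * v.1.1 + 2 ^ B)) ×ˢ
      ((Finset.Ico (2 ^ B * v.1.2.1) (2 ^ B * v.1.2.1 + 2 ^ B)) ×ˢ
        ({v.1.2.2} : Finset (Fin c → ℤ)))) ?_).trans ?_
    · intro ω _
      rw [Finset.mem_product, Finset.mem_product, Finset.mem_singleton]
      exact ⟨up_mem B X y ω, up_mem B X om ω, rfl⟩
    · refine le_of_eq ?_
      simp only [Finset.card_product, cardup, Finset.card_singleton]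
      rw [Ex_const hq.sum_one]
      have : (((2 ^ B * (2 ^ B * 1) : ℕ)) : ℝ) = 2 ^ (2 * B) := by
        push_cast
        rw [mul_one, ← pow_add]
        congr 1
        ring
      rw [this, Real.log_pow]
      push_cast
      ring
  have k6 := CH_le_add h0 (dgv X nu) (fun ω => (dg X (fun v => 2 ^ B * y v) ω,
    (dg X (fun v => 2 ^ B * om v) ω, dgv X be ω)))
    (fun ω => ((dg X y ω, (dg X om ω, dgv X be ω)), (b ω, T ω)))
  rw [k1, k2]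
  linarith

theorem Mk.H3 (hk : Mk B q b L T vis y om be th S nu X f)
    (hth : ∀ ω, 0 < q ω → 0 ≤ th ω ∧ th ω < 1) (hS : ∀ ω, 0 < q ω → ∀ i, |S ω i| ≤ 2 ^ B) {ι : ℝ}
    (hX : (4 * B + 4 + 6 * c) * Real.log 2 ≤ ι * X)
    (h3 : CH q (dg X om) (fun ω => (b ω, T ω)) -
      CH q (dg X om) (fun ω => ((dg X (ytr y om th) ω, dgv X (btr om be S) ω),
        (b ω, T ω))) ≤ ι / 2 * X) :
    (mkV B q L T vis f nu X).H3 ι := by
  classical
  have hq : IsLaw q := hk.ok.law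
  have h0 := hq.nonneg
  have h2X : (0 : ℝ) < 2 ^ X := by positivity
  show Pool.KVA.MI q (fun ω => (mkV B q L T vis f nu X).om (L ω))
    (fun ω => (mkV B q L T vis f nu X).Yt (T ω) (L ω))
    (fun ω => ((mkV B q L T vis f nu X).B ω, T ω)) ≤ ι * X
  rw [MI_eq h0]
  obtain ⟨Yt, hYt⟩ : ∃ Yt : Ω → ℤ × (Fin c → ℤ),
    Yt = fun ω => (mkV B q L T vis f nu X).Yt (T ω) (L ω) := ⟨_, rfl⟩
  obtain ⟨R, hR⟩ : ∃ R : Ω → ℤ × (Fin c → ℤ),
    R = fun ω => (dg X (ytr y om th) ω, dgv X (btr om be S) ω) := ⟨_, rfl⟩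
  obtain ⟨W, hW⟩ : ∃ W : Ω → β × Θ, W = fun ω => (b ω, T ω) := ⟨_, rfl⟩
  have e1 : CH q (fun ω => (mkV B q L T vis f nu X).om (L ω))
      (fun ω => ((mkV B q L T vis f nu X).B ω, T ω)) =
      CH q (dg X (fun v => 2 ^ B * om v)) W := by
    rw [hW]
    exact CH_eq_of h0 hk.eom fun ω hω => Prod.ext (hk.eb ω hω) rfl
  have e2 : CH q (fun ω => (mkV B q L T vis f nu X).om (L ω))
      (fun ω => ((mkV B q L T vis f nu X).Yt (T ω) (L ω), ((mkV B q L T vis f nu X).B ω, T ω))) =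
      CH q (dg X (fun v => 2 ^ B * om v)) (fun ω => (Yt ω, W ω)) := by
    rw [hW, hYt]
    exact CH_eq_of h0 hk.eom fun ω hω => Prod.ext rfl (Prod.ext (hk.eb ω hω) rfl)
  have k1 := CH_up hq B X om W
  have k2 := CH_up_ge hq B X om (fun ω => (Yt ω, W ω))
  have k3 : CH q (dg X om) (fun ω => (R ω, W ω)) ≤
      CH q Yt (fun ω => (R ω, W ω)) + CH q (dg X om) (fun ω => (Yt ω, (R ω, W ω))) :=
    CH_le_add h0 (dg X om) Yt (fun ω => (R ω, W ω))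
  have k4 : CH q (dg X om) (fun ω => (Yt ω, (R ω, W ω))) ≤
      CH q (dg X om) (fun ω => (Yt ω, W ω)) :=
    CH_mono_cond h0 fun ω ω' _ _ e => Prod.ext (Prod.ext_iff.mp e).1
      (Prod.ext_iff.mp (Prod.ext_iff.mp e).2).2
  have hy' : ∀ ω, 0 < q ω → (mkV B q L T vis f nu X).yR (L ω) =
      (dg X (fun v => 2 ^ B * y v) ω : ℝ) / 2 ^ X := by
    intro ω hω
    rw [← hk.ey ω hω]
    rfl
  have hom' : ∀ ω, 0 < q ω → (mkV B q L T vis f nu X).omR (L ω) =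
      (dg X (fun v => 2 ^ B * om v) ω : ℝ) / 2 ^ X := by
    intro ω hω
    rw [← hk.eom ω hω]
    rfl
  have hbe' : ∀ ω, 0 < q ω → ∀ i, (mkV B q L T vis f nu X).beR (L ω) i =
      (dgv X be ω i : ℝ) / 2 ^ X := by
    intro ω hω i
    rw [← hk.ebe ω hω]
    rfl
  have k5 : CH q Yt (fun ω => (R ω, W ω)) ≤ (B + 2 + 3 * c) * Real.log 2 := by
    refine (CH_le_card h0 hq.sum_one _ _ (fun v =>
      (Finset.Ico (2 ^ B * v.1.1 - 2) (2 ^ B * v.1.1 + 2 ^ B)) ×ˢ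
      (Fintype.piFinset fun i : Fin c => Finset.Ico (v.1.2 i - 2) (v.1.2 i + 4))) ?_).trans ?_
    · intro ω hω
      rw [Finset.mem_product, Fintype.mem_piFinset, hYt, hR]
      have n4 := bnd1 ((2 : ℝ) ^ X * (2 ^ B * y ω))
      have n5 := bnd1 ((2 : ℝ) ^ X * (2 ^ B * om ω))
      have n4' := Int.floor_le ((2 : ℝ) ^ X * (2 ^ B * y ω))
      have n5' := Int.floor_le ((2 : ℝ) ^ X * (2 ^ B * om ω))
      refine ⟨?_, fun i => ?_⟩
      · show ⌊(2 : ℝ) ^ X * ((mkV B q L T vis f nu X).yR (L ω) +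
          (mkV B q L T vis f nu X).th (T ω) *
          (mkV B q L T vis f nu X).omR (L ω))⌋ ∈
          Finset.Ico (2 ^ B * ⌊(2 : ℝ) ^ X * (y ω + th ω * om ω)⌋ - 2)
            (2 ^ B * ⌊(2 : ℝ) ^ X * (y ω + th ω * om ω)⌋ + 2 ^ B)
        rw [hy' ω hω, hom' ω hω, hk.eth ω hω]
        exact yt_mem ⟨n4, n4'⟩ ⟨n5, n5'⟩ (hth ω hω).1 (hth ω hω).2 h2X
      · show ⌊(2 : ℝ) ^ X * ((mkV B q L T vis f nu X).beR (L ω) i -
          (mkV B q L T vis f nu X).S (T ω) i *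
          (mkV B q L T vis f nu X).omR (L ω))⌋ ∈
          Finset.Ico (⌊(2 : ℝ) ^ X * (be ω i - S ω i * om ω)⌋ - 2)
            (⌊(2 : ℝ) ^ X * (be ω i - S ω i * om ω)⌋ + 4)
        rw [hbe' ω hω, hom' ω hω, hk.eS ω hω]
        exact bt_mem (bnd1 _) n5 (hS ω hω i) h2X
    · have c1 : ∀ a : ℤ, (Finset.Ico (2 ^ B * a - 2) (2 ^ B * a + 2 ^ B)).card = 2 ^ B + 2 := by
        intro a
        rw [Int.card_Ico]
        have : 2 ^ B * a + 2 ^ B - (2 ^ B * a - 2) = ((2 ^ B + 2 : ℕ) : ℤ) := by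
          push_cast
          ring
        rw [this]
        exact Int.toNat_natCast _
      have c2 : ∀ a : ℤ, (Finset.Ico (a - 2) (a + 4)).card = 6 := by
        intro a
        rw [Int.card_Ico]
        have : a + 4 - (a - 2) = 6 := by ring
        rw [this]
        rfl
      simp only [Finset.card_product, Fintype.card_piFinset, c1, c2, Finset.prod_const,
        Finset.card_univ, Fintype.card_fin]
      rw [Ex_const hq.sum_one]
      have e3 : (((2 ^ B + 2) * 6 ^ c : ℕ) : ℝ) ≤ 2 ^ (B + 2 + 3 * c) := by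
        push_cast
        have e7 : (1 : ℝ) ≤ 2 ^ B := one_le_pow₀ (by norm_num)
        have e4 : ((2 : ℝ) ^ B + 2) * 6 ^ c ≤ (2 ^ B * 4) * 8 ^ c :=
          mul_le_mul (by linarith) (pow_le_pow_left₀ (by norm_num) (by norm_num) c)
            (by positivity) (by positivity)
        have e5 : (2 : ℝ) ^ (B + 2 + 3 * c) = (2 ^ B * 4) * 8 ^ c := by
          rw [pow_add, pow_add, pow_mul]
          norm_num
        rw [e5]
        exact e4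
      have e6 : (0 : ℝ) < (((2 ^ B + 2) * 6 ^ c : ℕ) : ℝ) := by positivity
      refine (Real.log_le_log e6 e3).trans (le_of_eq ?_)
      rw [Real.log_pow]
      push_cast
      ring
  have h3' : CH q (dg X om) W - CH q (dg X om) (fun ω => (R ω, W ω)) ≤ ι / 2 * X := by
    rw [hR, hW]
    exact h3
  rw [e1, e2]
  have hl : 0 < Real.log 2 := Real.log_pos (by norm_num)
  linarith

/-- Digits of the rounded velocity. -/
theorem Mk.omi (hk : Mk B q b L T vis y om be th S nu X f) {r : ℕ} (hr : r ≤ X) {ω : Ω}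
    (hω : 0 < q ω) : (mkV B q L T vis f nu X).omi r ω = dg r (fun v => 2 ^ B * om v) ω := by
  have h1 := hk.eom ω hω
  show ⌊(2 : ℝ) ^ r * (((mkV B q L T vis f nu X).om (L ω) : ℝ) / 2 ^ X)⌋ =
    ⌊(2 : ℝ) ^ r * (2 ^ B * om ω)⌋
  rw [h1]
  exact floor_round hr (2 ^ B * om ω)

theorem Mk.H4 (hk : Mk B q b L T vis y om be th S nu X f) {ca η ϖ : ℝ} (hϖ : 0 < ϖ)
    (hX : 2 * B ≤ ca * ⌊η * X⌋₊)
    (h4 : ∀ j : ℕ, (j + 1) * ⌊η * X⌋₊ ≤ X → ∀ E : Ω → Prop, ϖ ≤ Pe q E →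
      ca * ⌊η * X⌋₊ * Real.log 2 ≤ CH (Pool.Agent.H49.Ent.cond q E True)
        (dg ((j + 1) * ⌊η * X⌋₊) om) (fun ω => (dg (j * ⌊η * X⌋₊) om ω, b ω))) :
    (mkV B q L T vis f nu X).H4 (ca / 2) η ϖ := by
  have hq : IsLaw q := hk.ok.law
  have h0 := hq.nonneg
  intro j hj E hE
  have hj1 : (j + 1) * ⌊η * X⌋₊ ≤ X := hj
  have hj' : j * ⌊η * X⌋₊ ≤ X := le_trans (Nat.mul_le_mul_right _ (Nat.le_succ j)) hj1
  have hE' : ϖ ≤ Pe q (fun ω => ω ∈ E) := hE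
  have hE0 : 0 < Pe q (fun ω => ω ∈ E) := lt_of_lt_of_le hϖ hE'
  have k1 := h4 j hj1 (fun ω => ω ∈ E) hE'
  obtain ⟨g, hg⟩ : ∃ g : Ω → ℝ, g = Pool.Agent.H49.Ent.cond q (fun ω => ω ∈ E) True := ⟨_, rfl⟩
  have hgl : IsLaw g := by
    rw [hg]
    exact isLaw_cond hq hE0
  have hgq : ∀ ω, 0 < g ω → 0 < q ω := by
    intro ω hω
    rw [hg] at hω
    exact ((cond_pos_iff h0 _ _ ω).1 hω).1
  show ca / 2 * ⌊η * X⌋₊ * Real.log 2 ≤ CH (Pool.Agent.H49.Ent.cond q (fun ω => ω ∈ E) True)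
    ((mkV B q L T vis f nu X).omi ((j + 1) * ⌊η * X⌋₊))
    (fun ω => ((mkV B q L T vis f nu X).omi (j * ⌊η * X⌋₊) ω, (mkV B q L T vis f nu X).B ω))
  rw [← hg] at k1 ⊢
  have e1 : CH g ((mkV B q L T vis f nu X).omi ((j + 1) * ⌊η * X⌋₊))
      (fun ω => ((mkV B q L T vis f nu X).omi (j * ⌊η * X⌋₊) ω, (mkV B q L T vis f nu X).B ω)) =
      CH g (dg ((j + 1) * ⌊η * X⌋₊) (fun v => 2 ^ B * om v))
        (fun ω => (dg (j * ⌊η * X⌋₊) (fun v => 2 ^ B * om v) ω, b ω)) :=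
    CH_eq_of hgl.nonneg (fun ω hω => hk.omi hj1 (hgq ω hω)) fun ω hω =>
      Prod.ext (hk.omi hj' (hgq ω hω)) (hk.eb ω (hgq ω hω))
  rw [e1]
  have k2 := CH_up_ge hgl B ((j + 1) * ⌊η * X⌋₊) om
    (fun ω => (dg (j * ⌊η * X⌋₊) (fun v => 2 ^ B * om v) ω, b ω))
  have k3 := CH_le_add hgl.nonneg (dg ((j + 1) * ⌊η * X⌋₊) om)
    (dg (j * ⌊η * X⌋₊) (fun v => 2 ^ B * om v)) (fun ω => (dg (j * ⌊η * X⌋₊) om ω, b ω))
  have k4 := CH_up_given hgl B (j * ⌊η * X⌋₊) om b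
  have k5 : CH g (dg ((j + 1) * ⌊η * X⌋₊) om) (fun ω => (dg (j * ⌊η * X⌋₊)
      (fun v => 2 ^ B * om v) ω, (dg (j * ⌊η * X⌋₊) om ω, b ω))) ≤
      CH g (dg ((j + 1) * ⌊η * X⌋₊) om)
        (fun ω => (dg (j * ⌊η * X⌋₊) (fun v => 2 ^ B * om v) ω, b ω)) :=
    CH_mono_cond hgl.nonneg fun ω ω' _ _ e => Prod.ext (Prod.ext_iff.mp e).1
      (Prod.ext_iff.mp (Prod.ext_iff.mp e).2).2
  have hl : 0 < Real.log 2 := Real.log_pos (by norm_num)
  have k6 := mul_le_mul_of_nonneg_right hX hl.le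
  linarith

omit [Fintype Ω] in
theorem mk_row {r : ℕ} [Fintype Ω] (hr : r ≤ X) :
    (mkV B q L T vis f nu X).row r = dgv r nu := by
  funext ω i
  exact floor_row hr (nu ω i)

theorem mk_H5 {c₀ κ ϖ : ℝ}
    (h5 : ∀ j : ℕ, (j + 1) * ⌊κ * X⌋₊ ≤ X → ∀ E : Ω → Prop, ϖ ≤ Pe q E →
      CH (Pool.Agent.H49.Ent.cond q E True) (dgv ((j + 1) * ⌊κ * X⌋₊) nu)
        (fun ω => (dgv (j * ⌊κ * X⌋₊) nu ω, (vis ω, T ω))) ≤
          (c - c₀) * ⌊κ * X⌋₊ * Real.log 2) :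
    (mkV B q L T vis f nu X).H5 c₀ κ ϖ := by
  intro j hj E hE
  have k1 := h5 j hj (fun ω => ω ∈ E) hE
  refine le_trans (le_of_eq ?_) k1
  have hj1 : (j + 1) * ⌊κ * X⌋₊ ≤ X := hj
  have hj' : j * ⌊κ * X⌋₊ ≤ X := le_trans (Nat.mul_le_mul_right _ (Nat.le_succ j)) hj1
  have r1 : (mkV B q L T vis f nu X).row ((j + 1) * ⌊κ * X⌋₊) = dgv ((j + 1) * ⌊κ * X⌋₊) nu :=
    mk_row hj1
  have r2 : (mkV B q L T vis f nu X).row (j * ⌊κ * X⌋₊) = dgv (j * ⌊κ * X⌋₊) nu := mk_row hj'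
  show CH (Pool.Agent.H49.Ent.cond q (fun ω => ω ∈ E) True)
    ((mkV B q L T vis f nu X).row ((j + 1) * ⌊κ * X⌋₊))
    (fun ω => ((mkV B q L T vis f nu X).row (j * ⌊κ * X⌋₊) ω, (vis ω, T ω))) = _
  rw [r1, r2]

theorem Mk.H7 (hk : Mk B q b L T vis y om be th S nu X f) {ι : ℝ}
    (h7 : CH q (dgv X nu) (fun ω => (vis ω, T ω)) -
      CH q (dgv X nu) (fun ω => (b ω, (vis ω, T ω))) ≤ ι * X) :
    (mkV B q L T vis f nu X).H7 ι := by
  have h0 : ∀ ω, 0 ≤ q ω := hk.ok.law.nonneg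
  show Pool.KVA.MI q (dgv X nu) (mkV B q L T vis f nu X).B (fun ω => (vis ω, T ω)) ≤ ι * X
  rw [MI_eq h0]
  have e1 : CH q (dgv X nu) (fun ω => ((mkV B q L T vis f nu X).B ω, (vis ω, T ω))) =
      CH q (dgv X nu) (fun ω => (b ω, (vis ω, T ω))) :=
    CH_eq_of h0 (fun _ _ => rfl) fun ω hω => Prod.ext (hk.eb ω hω) rfl
  rw [e1]
  exact h7

end Pool.OCV
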