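import Pool.Agent.H45.OCV.Base

/-!
# Theorem OCV for real variables: the data

`OCVData` are the data with real variables; `mkV` rounds them.
-/

set_option autoImplicit false

namespace Pool.OCV

open Finset Real
open Pool.Agent.H49.Ent Pool.Agent.H32.Dense Pool.STK Pool.KA Pool.K2S
open Pool.K2S.Uni

variable {Ω Λ Θ β ν : Type} [Fintype Ω] {c : ℕ}

/-- The data of theorem OCV with real variables. `b` is the context of the line `L`, `vis` its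
visible part at the time `T`, `nu` the normal position; `kn` is its part known from the context and
the time. -/
structure OCVData (K : ℝ) (p : Ω → ℝ) (b : Ω → β) (L : Ω → Λ) (T : Ω → Θ) (vis : Ω → ν)
    (y om : Ω → ℝ) (be m0 : Ω → Fin c → ℝ) (th : Ω → ℝ) (S kn nu : Ω → Fin c → ℝ) : Prop where
  law : IsLaw p
  db : Det p L b
  dvis : Det p (fun ω => (b ω, T ω)) vis
  dy : Det p L y
  dom : Det p L om
  dbe : Det p L be
  dm0 : Det p L m0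
  dth : Det p T th
  dS : Det p T S
  dkn : Det p (fun ω => (b ω, T ω)) kn
  hy : ∀ ω, 0 < p ω → 0 ≤ y ω ∧ y ω < 1
  hom : ∀ ω, 0 < p ω → 0 ≤ om ω ∧ om ω < 1
  hbe : ∀ ω, 0 < p ω → ∀ i, 0 ≤ be ω i ∧ be ω i < 1
  hth : ∀ ω, 0 < p ω → 0 ≤ th ω ∧ th ω < 1
  hS : ∀ ω, 0 < p ω → ∀ i, |S ω i| ≤ K
  hnu : ∀ ω, 0 < p ω → ∀ i,
    nu ω i = m0 ω i + th ω * be ω i - S ω i * (y ω + th ω * om ω) + kn ω i

/-- The functions which represent the variables. -/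
structure Fns (Λ Θ β : Type) (c : ℕ) where
  y : Λ → ℝ
  om : Λ → ℝ
  be : Λ → Fin c → ℝ
  b : Λ → β
  th : Θ → ℝ
  S : Θ → Fin c → ℝ
  kn : β → Θ → Fin c → ℝ

open Classical in
/-- The data with integer variables. -/
noncomputable def mkV (B : ℕ) (q : Ω → ℝ) (L : Ω → Λ) (T : Ω → Θ) (vis : Ω → ν) (f : Fns Λ Θ β c)
    (nu : Ω → Fin c → ℝ) (X : ℕ) : Dat c where
  Om := Ω
  Lam := Λ
  Tau := Θ
  Bt := β
  Vt := ν
  P := q
  L := L
  T := T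
  b := f.b
  vis := vis
  y := fun l => ⌊(2 : ℝ) ^ X * (2 ^ B * f.y l)⌋
  om := fun l => ⌊(2 : ℝ) ^ X * (2 ^ B * f.om l)⌋
  be := fun l i => ⌊(2 : ℝ) ^ X * f.be l i⌋
  N := dgv X nu
  th := fun t => if 0 ≤ f.th t ∧ f.th t < 1 then f.th t else 0
  S := fun t i => if |f.S t i| ≤ 2 ^ B then f.S t i / 2 ^ B else 0
  kn := fun z t i => (2 : ℝ) ^ X * f.kn z t i
  X := X

/-- The integer data of real data: the relations between them. -/
structure Mk (B : ℕ) (q : Ω → ℝ) (b : Ω → β) (L : Ω → Λ) (T : Ω → Θ) (vis : Ω → ν) (y om : Ω → ℝ)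
    (be : Ω → Fin c → ℝ) (th : Ω → ℝ) (S nu : Ω → Fin c → ℝ) (X : ℕ) (f : Fns Λ Θ β c) :
    Prop where
  ok : (mkV B q L T vis f nu X).OK B
  eb : ∀ ω, 0 < q ω → (mkV B q L T vis f nu X).B ω = b ω
  eth : ∀ ω, 0 < q ω → (mkV B q L T vis f nu X).th (T ω) = th ω
  eS : ∀ ω, 0 < q ω → ∀ i, (mkV B q L T vis f nu X).S (T ω) i = S ω i / 2 ^ B
  ey : ∀ ω, 0 < q ω → (mkV B q L T vis f nu X).y (L ω) = dg X (fun v => 2 ^ B * y v) ω
  eom : ∀ ω, 0 < q ω → (mkV B q L T vis f nu X).om (L ω) = dg X (fun v => 2 ^ B * om v) ω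
  ebe : ∀ ω, 0 < q ω → (mkV B q L T vis f nu X).be (L ω) = dgv X be ω

theorem mk_exists {q : Ω → ℝ} {b : Ω → β} {L : Ω → Λ} {T : Ω → Θ} {vis : Ω → ν} {y om : Ω → ℝ}
    {be m0 : Ω → Fin c → ℝ} {th : Ω → ℝ} {S kn nu : Ω → Fin c → ℝ}
    {K : ℝ} (hd : OCVData K q b L T vis y om be m0 th S kn nu) {B : ℕ} (hK : K ≤ 2 ^ B) (X : ℕ) :
    ∃ f : Fns Λ Θ β c, Mk B q b L T vis y om be th S nu X f := by
  classical
  have hq := hd.law
  have h0 := hq.nonneg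
  have hne : Nonempty Ω := by
    by_contra h
    rw [not_nonempty_iff] at h
    have := hq.sum_one
    simp at this
  have hnb : Nonempty β := ⟨b hne.some⟩
  obtain ⟨fy, hfy⟩ := exists_fun' hd.dy
  obtain ⟨fom, hfom⟩ := exists_fun' hd.dom
  obtain ⟨fbe, hfbe⟩ := exists_fun' hd.dbe
  obtain ⟨fm, hfm⟩ := exists_fun' hd.dm0
  obtain ⟨fb, hfb⟩ := exists_fun' hd.db
  obtain ⟨fth, hfth⟩ := exists_fun' hd.dth
  obtain ⟨fS, hfS⟩ := exists_fun' hd.dS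
  obtain ⟨fkn, hfkn⟩ := exists_fun' hd.dkn
  obtain ⟨f, hf⟩ : ∃ f : Fns Λ Θ β c, f = ⟨fy, fom, fbe, fb, fth, fS, fun z t => fkn (z, t)⟩ :=
    ⟨_, rfl⟩
  have h2X : (0 : ℝ) < 2 ^ X := by positivity
  -- the values on the support
  have eb : ∀ ω, 0 < q ω → (mkV B q L T vis f nu X).B ω = b ω := by
    intro ω hω
    show f.b (L ω) = b ω
    rw [hf]
    exact (hfb ω hω).symm
  have eth : ∀ ω, 0 < q ω → (mkV B q L T vis f nu X).th (T ω) = th ω := by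
    intro ω hω
    have e1 : f.th (T ω) = th ω := by
      rw [hf]
      exact (hfth ω hω).symm
    show (if 0 ≤ f.th (T ω) ∧ f.th (T ω) < 1 then f.th (T ω) else 0) = th ω
    rw [e1, if_pos (hd.hth ω hω)]
  have eS : ∀ ω, 0 < q ω → ∀ i, (mkV B q L T vis f nu X).S (T ω) i = S ω i / 2 ^ B := by
    intro ω hω i
    have e1 : f.S (T ω) = S ω := by
      rw [hf]
      exact (hfS ω hω).symm
    show (if |f.S (T ω) i| ≤ 2 ^ B then f.S (T ω) i / 2 ^ B else 0) = S ω i / 2 ^ B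
    rw [e1, if_pos ((hd.hS ω hω i).trans hK)]
  have ekn : ∀ ω, 0 < q ω → ∀ i, (mkV B q L T vis f nu X).kn ((mkV B q L T vis f nu X).B ω) (T ω) i =
      2 ^ X * kn ω i := by
    intro ω hω i
    show (2 : ℝ) ^ X * f.kn ((mkV B q L T vis f nu X).B ω) (T ω) i = 2 ^ X * kn ω i
    rw [eb ω hω, hf]
    dsimp only
    rw [← hfkn ω hω]
  have ey : ∀ ω, 0 < q ω → (mkV B q L T vis f nu X).yR (L ω) =
      ⌊(2 : ℝ) ^ X * (2 ^ B * y ω)⌋ / 2 ^ X := by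
    intro ω hω
    show (⌊(2 : ℝ) ^ X * (2 ^ B * f.y (L ω))⌋ : ℝ) / 2 ^ X = _
    rw [hf]
    dsimp only
    rw [← hfy ω hω]
  have eom : ∀ ω, 0 < q ω → (mkV B q L T vis f nu X).omR (L ω) =
      ⌊(2 : ℝ) ^ X * (2 ^ B * om ω)⌋ / 2 ^ X := by
    intro ω hω
    show (⌊(2 : ℝ) ^ X * (2 ^ B * f.om (L ω))⌋ : ℝ) / 2 ^ X = _
    rw [hf]
    dsimp only
    rw [← hfom ω hω]
  have ebe : ∀ ω, 0 < q ω → ∀ i, (mkV B q L T vis f nu X).beR (L ω) i =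
      ⌊(2 : ℝ) ^ X * be ω i⌋ / 2 ^ X := by
    intro ω hω i
    show (⌊(2 : ℝ) ^ X * f.be (L ω) i⌋ : ℝ) / 2 ^ X = _
    rw [hf]
    dsimp only
    rw [← hfbe ω hω]
  have hB : (0 : ℝ) < 2 ^ B := by positivity
  have hB1 : (1 : ℝ) ≤ 2 ^ B := one_le_pow₀ (by norm_num)
  have sz : ∀ x : ℝ, 0 ≤ x → x < 2 ^ B → |(⌊(2 : ℝ) ^ X * x⌋ : ℝ) / 2 ^ X| ≤ 2 ^ B := by
    intro x hx hx'
    have a1 : (0 : ℝ) ≤ ⌊(2 : ℝ) ^ X * x⌋ := by
      exact_mod_cast Int.floor_nonneg.2 (by positivity)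
    rw [abs_of_nonneg (div_nonneg a1 h2X.le), div_le_iff₀ h2X]
    have a2 := Int.floor_le ((2 : ℝ) ^ X * x)
    have a3 : (2 : ℝ) ^ X * x ≤ 2 ^ X * 2 ^ B := mul_le_mul_of_nonneg_left hx'.le h2X.le
    linarith
  have det1 : ∀ ω ω', 0 < q ω → 0 < q ω' → L ω = L ω' → y ω' = y ω ∧ om ω' = om ω ∧
      be ω' = be ω ∧ m0 ω' = m0 ω ∧ b ω' = b ω := fun ω ω' a b' e =>
    ⟨hd.dy ω' ω b' a e.symm, hd.dom ω' ω b' a e.symm, hd.dbe ω' ω b' a e.symm,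
      hd.dm0 ω' ω b' a e.symm, hd.db ω' ω b' a e.symm⟩
  refine ⟨f, ⟨⟨hq, ?_, ?_, ?_, ?_, ?_, ?_, ?_, ?_⟩, eb, eth, eS, ?_, ?_, ?_⟩⟩
  · intro ω hω
    rw [show (mkV B q L T vis f nu X).L ω = L ω from rfl, ey ω hω]
    obtain ⟨a1, a2⟩ := hd.hy ω hω
    exact sz _ (by positivity) (by nlinarith)
  · intro ω hω
    rw [show (mkV B q L T vis f nu X).L ω = L ω from rfl, eom ω hω]
    obtain ⟨a1, a2⟩ := hd.hom ω hω
    exact sz _ (by positivity) (by nlinarith)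
  · intro ω hω i
    rw [show (mkV B q L T vis f nu X).L ω = L ω from rfl, ebe ω hω i]
    obtain ⟨a1, a2⟩ := hd.hbe ω hω i
    exact sz _ a1 (by linarith)
  · intro ω ω' a b' e
    have e1 : L ω = L ω' := (Prod.ext_iff.mp e).1
    have e2 : T ω = T ω' := (Prod.ext_iff.mp e).2
    show (fun i => ⌊(2 : ℝ) ^ X * nu ω i⌋) = fun i => ⌊(2 : ℝ) ^ X * nu ω' i⌋
    obtain ⟨d1, d2, d3, d4, d5⟩ := det1 ω ω' a b' e1
    have d6 : th ω' = th ω := hd.dth ω' ω b' a e2.symm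
    have d7 : S ω' = S ω := hd.dS ω' ω b' a e2.symm
    have d8 : kn ω' = kn ω := hd.dkn ω' ω b' a (Prod.ext d5 e2.symm)
    funext i
    rw [hd.hnu ω a i, hd.hnu ω' b' i, d1, d2, d3, d4, d6, d7, d8]
  · intro ω ω' a b' e
    have e1 : (mkV B q L T vis f nu X).B ω = (mkV B q L T vis f nu X).B ω' := (Prod.ext_iff.mp e).1
    have e2 : T ω = T ω' := (Prod.ext_iff.mp e).2
    rw [eb ω a, eb ω' b'] at e1
    exact hd.dvis ω ω' a b' (Prod.ext e1 e2)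
  · intro t
    show 0 ≤ (if 0 ≤ f.th t ∧ f.th t < 1 then f.th t else 0) ∧
      (if 0 ≤ f.th t ∧ f.th t < 1 then f.th t else 0) < 1
    by_cases h : 0 ≤ f.th t ∧ f.th t < 1
    · rw [if_pos h]
      exact h
    · rw [if_neg h]
      exact ⟨le_rfl, one_pos⟩
  · intro t i
    show |(if |f.S t i| ≤ 2 ^ B then f.S t i / 2 ^ B else 0)| ≤ 1
    by_cases h : |f.S t i| ≤ 2 ^ B
    · rw [if_pos h, abs_div, abs_of_pos hB, div_le_one hB]
      exact h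
    · rw [if_neg h, abs_zero]
      exact zero_le_one
  · intro ω ω' a b' e i
    have e1 : L ω = L ω' := e
    obtain ⟨d1, d2, d3, d4, d5⟩ := det1 ω ω' a b' e1
    have k1 : (mkV B q L T vis f nu X).B ω = (mkV B q L T vis f nu X).B ω' := by
      rw [eb ω a, eb ω' b', d5]
    show |((⌊(2 : ℝ) ^ X * nu ω' i⌋ : ℝ) - ⌊(2 : ℝ) ^ X * nu ω i⌋) - (2 ^ X *
      (((mkV B q L T vis f nu X).th (T ω') - (mkV B q L T vis f nu X).th (T ω)) *
        (mkV B q L T vis f nu X).beR (L ω) i -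
      ((mkV B q L T vis f nu X).S (T ω') i - (mkV B q L T vis f nu X).S (T ω) i) *
        (mkV B q L T vis f nu X).yR (L ω) -
      ((mkV B q L T vis f nu X).S (T ω') i * (mkV B q L T vis f nu X).th (T ω') -
        (mkV B q L T vis f nu X).S (T ω) i * (mkV B q L T vis f nu X).th (T ω)) *
        (mkV B q L T vis f nu X).omR (L ω)) +
      ((mkV B q L T vis f nu X).kn ((mkV B q L T vis f nu X).B ω) (T ω') i -
        (mkV B q L T vis f nu X).kn ((mkV B q L T vis f nu X).B ω) (T ω) i))| ≤ 8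
    have k2 := ekn ω' b' i
    rw [← k1] at k2
    rw [eth ω a, eth ω' b', eS ω a, eS ω' b', ey ω a, eom ω a, ebe ω a, ekn ω a, k2]
    have c1 := hd.hnu ω a i
    have c2 := hd.hnu ω' b' i
    rw [d1, d2, d3, d4] at c2
    obtain ⟨t1, t1'⟩ := hd.hth ω a
    obtain ⟨t2, t2'⟩ := hd.hth ω' b'
    have s1 := (hd.hS ω a i).trans hK
    have s2 := (hd.hS ω' b' i).trans hK
    have n1 := bnd1 ((2 : ℝ) ^ X * nu ω i)
    have n2 := bnd1 ((2 : ℝ) ^ X * nu ω' i)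
    have n3 := bnd1 ((2 : ℝ) ^ X * be ω i)
    have n4 := bnd1 ((2 : ℝ) ^ X * (2 ^ B * y ω))
    have n5 := bnd1 ((2 : ℝ) ^ X * (2 ^ B * om ω))
    have n1' : |(2 : ℝ) ^ X * (nu ω i - kn ω i) -
        ((⌊(2 : ℝ) ^ X * nu ω i⌋ : ℝ) - 2 ^ X * kn ω i)| ≤ 1 := by
      refine le_trans (le_of_eq ?_) n1
      congr 1
      ring
    have n2' : |(2 : ℝ) ^ X * (nu ω' i - kn ω' i) -
        ((⌊(2 : ℝ) ^ X * nu ω' i⌋ : ℝ) - 2 ^ X * kn ω' i)| ≤ 1 := by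
      refine le_trans (le_of_eq ?_) n2
      congr 1
      ring
    have c1' : nu ω i - kn ω i = m0 ω i + th ω * be ω i - S ω i * (y ω + th ω * om ω) := by
      rw [c1]
      ring
    have c2' : nu ω' i - kn ω' i =
        m0 ω i + th ω' * be ω i - S ω' i * (y ω + th ω' * om ω) := by
      rw [c2]
      ring
    have k3 := hZ_up h2X c1' c2' t1 t1' t2 t2' s1 s2 n1' n2' n3 n4 n5
    refine le_trans (le_of_eq ?_) k3
    congr 1
    ring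
  · intro ω hω
    show ⌊(2 : ℝ) ^ X * (2 ^ B * f.y (L ω))⌋ = ⌊(2 : ℝ) ^ X * (2 ^ B * y ω)⌋
    rw [hf]
    dsimp only
    rw [← hfy ω hω]
  · intro ω hω
    show ⌊(2 : ℝ) ^ X * (2 ^ B * f.om (L ω))⌋ = ⌊(2 : ℝ) ^ X * (2 ^ B * om ω)⌋
    rw [hf]
    dsimp only
    rw [← hfom ω hω]
  · intro ω hω
    show (fun i => ⌊(2 : ℝ) ^ X * f.be (L ω) i⌋) = fun i => ⌊(2 : ℝ) ^ X * be ω i⌋
    rw [hf]
    dsimp only
    rw [← hfbe ω hω]

end Pool.OCV
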